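import Mathlib

/-!
# A planar set with an `ℓ₃`-isometric copy that meets every plane in at most four points

For `p = 3` there is an uncountable subset `M` of the horizontal plane `x₃ = 0` (an arc of a
rational quartic curve) with an `ℓ_p`-isometric copy `M'` in `ℝ³` (an arc of a rational quartic
space curve) that meets every plane in at most four points.
-/

namespace Pool.Agent.Results.MP_04b39a_gt.NoPlane

/-- the norm `‖x‖_p = (|x₁|^p + |x₂|^p + |x₃|^p)^(1/p)` on `ℝ³` -/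
noncomputable def lpNorm (p : ℝ) (x : Fin 3 → ℝ) : ℝ := (∑ i, |x i| ^ p) ^ (1 / p)

/-- `M'` is an `ℓ_p`-isometric copy of `M` -/
def IsCopy (p : ℝ) (M M' : Set (Fin 3 → ℝ)) : Prop :=
  ∃ φ : M ≃ M', ∀ x y : M, lpNorm p ((φ x : Fin 3 → ℝ) - φ y) = lpNorm p ((x : Fin 3 → ℝ) - y)

/-- `P` is a plane of `ℝ³`: an affine subspace of dimension two -/
def IsPlane (P : Set (Fin 3 → ℝ)) : Prop :=
  ∃ A : AffineSubspace ℝ (Fin 3 → ℝ), Module.finrank ℝ A.direction = 2 ∧ P = A

/-- a positive cube root of two -/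
noncomputable def k : ℝ := (2 : ℝ) ^ (1 / 3 : ℝ)

theorem k_pos : 0 < k := Real.rpow_pos_of_pos (by norm_num) _

theorem k_cube : k ^ 3 = 2 := by
  unfold k
  rw [← Real.rpow_natCast, ← Real.rpow_mul (by norm_num)]
  norm_num

/-- the planar curve -/
noncomputable def c (t : ℝ) : Fin 3 → ℝ :=
  ![t + 1 / t - 2 / (t + 1) - 2 / (t - 1), k * (t - 1 / t + 2 / (t + 1) + 2 / (t - 1)), 0]

/-- the space curve -/
noncomputable def d (t : ℝ) : Fin 3 → ℝ :=
  ![t - 1 / t - 2 / (t + 1) + 2 / (t - 1), t + 1 / t + 2 / (t + 1) + 2 / (t - 1),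
    t - 1 / t + 2 / (t + 1) - 2 / (t - 1)]

theorem lpNorm_three (x : Fin 3 → ℝ) :
    lpNorm 3 x = (|x 0| ^ 3 + |x 1| ^ 3 + |x 2| ^ 3) ^ (1 / 3 : ℝ) := by
  unfold lpNorm
  rw [Fin.sum_univ_three]
  have h : ∀ y : ℝ, y ^ (3 : ℝ) = y ^ 3 := fun y => by
    rw [← Real.rpow_natCast]; norm_num
  simp only [h]

/-- the algebraic identity behind the example -/
theorem identity {p q r : ℝ} (h : 4 * p * q * r - 2 * p * q + 4 * q * r - 2 * p * r = 0) :
    (1 + p + 2 * q - 2 * r) ^ 3 + (1 - p - 2 * q - 2 * r) ^ 3 + (1 + p - 2 * q + 2 * r) ^ 3 =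
      (1 - p + 2 * q + 2 * r) ^ 3 + 2 * (1 + p - 2 * q - 2 * r) ^ 3 := by
  linear_combination (-24) * h

theorem cubes {s t : ℝ} (hs : 3 ≤ s) (hst : s ≤ t) :
    |d t 0 - d s 0| ^ 3 + |d t 1 - d s 1| ^ 3 + |d t 2 - d s 2| ^ 3 =
      |c t 0 - c s 0| ^ 3 + |c t 1 - c s 1| ^ 3 + |c t 2 - c s 2| ^ 3 := by
  have ht : 3 ≤ t := hs.trans hst
  have hs0 : s ≠ 0 := by linarith
  have ht0 : t ≠ 0 := by linarith
  have hs1 : s + 1 ≠ 0 := by linarith
  have ht1 : t + 1 ≠ 0 := by linarith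
  have hs2 : s - 1 ≠ 0 := by linarith
  have ht2 : t - 1 ≠ 0 := by linarith
  obtain ⟨p, hp⟩ : ∃ p, p = 1 / (s * t) := ⟨_, rfl⟩
  obtain ⟨q, hq⟩ : ∃ q, q = 1 / ((s + 1) * (t + 1)) := ⟨_, rfl⟩
  obtain ⟨r, hr⟩ : ∃ r, r = 1 / ((s - 1) * (t - 1)) := ⟨_, rfl⟩
  have hrel : 4 * p * q * r - 2 * p * q + 4 * q * r - 2 * p * r = 0 := by
    rw [hp, hq, hr]
    field_simp
    ring
  have hp0 : 0 ≤ p := by rw [hp]; positivity
  have hq0 : 0 ≤ q := by rw [hq]; positivity
  have hr0 : 0 ≤ r := by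
    rw [hr]
    have : 0 < (s - 1) * (t - 1) := mul_pos (by linarith) (by linarith)
    positivity
  have hp1 : p ≤ 1 / 9 := by
    rw [hp]
    apply one_div_le_one_div_of_le (by norm_num)
    nlinarith
  have hq1 : q ≤ 1 / 16 := by
    rw [hq]
    apply one_div_le_one_div_of_le (by norm_num)
    nlinarith
  have hr1 : r ≤ 1 / 4 := by
    rw [hr]
    apply one_div_le_one_div_of_le (by norm_num)
    nlinarith
  have hh : 0 ≤ t - s := by linarith
  have hk := k_pos
  have e0 : d t 0 - d s 0 = (t - s) * (1 + p + 2 * q - 2 * r) := by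
    simp only [d, Matrix.cons_val_zero]
    rw [hp, hq, hr]
    field_simp
    ring
  have e1 : d t 1 - d s 1 = (t - s) * (1 - p - 2 * q - 2 * r) := by
    simp only [d, Matrix.cons_val_one, Matrix.cons_val_zero]
    rw [hp, hq, hr]
    field_simp
    ring
  have e2 : d t 2 - d s 2 = (t - s) * (1 + p - 2 * q + 2 * r) := by
    simp only [d, Matrix.cons_val]
    rw [hp, hq, hr]
    field_simp
    ring
  have g0 : c t 0 - c s 0 = (t - s) * (1 - p + 2 * q + 2 * r) := by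
    simp only [c, Matrix.cons_val_zero]
    rw [hp, hq, hr]
    field_simp
    ring
  have g1 : c t 1 - c s 1 = k * ((t - s) * (1 + p - 2 * q - 2 * r)) := by
    simp only [c, Matrix.cons_val_one, Matrix.cons_val_zero]
    rw [← mul_sub]
    congr 1
    rw [hp, hq, hr]
    field_simp
    ring
  have g2 : c t 2 - c s 2 = 0 := by
    simp [c]
  rw [e0, e1, e2, g0, g1, g2]
  rw [abs_of_nonneg (mul_nonneg hh (by linarith)), abs_of_nonneg (mul_nonneg hh (by linarith)),
    abs_of_nonneg (mul_nonneg hh (by linarith)), abs_of_nonneg (mul_nonneg hh (by linarith)),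
    abs_of_nonneg (mul_nonneg hk.le (mul_nonneg hh (by linarith))), abs_zero]
  have h1 := identity hrel
  have h2 := k_cube
  have h3 : (k * ((t - s) * (1 + p - 2 * q - 2 * r))) ^ 3 =
      2 * ((t - s) * (1 + p - 2 * q - 2 * r)) ^ 3 := by
    rw [mul_pow, h2]
  rw [h3]
  linear_combination (t - s) ^ 3 * h1

theorem isometric {s t : ℝ} (hs : 3 ≤ s) (ht : 3 ≤ t) :
    lpNorm 3 (d t - d s) = lpNorm 3 (c t - c s) := by
  rw [lpNorm_three, lpNorm_three]
  simp only [Pi.sub_apply]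
  congr 1
  rcases le_total s t with h | h
  · exact cubes hs h
  · rw [abs_sub_comm (d t 0), abs_sub_comm (d t 1), abs_sub_comm (d t 2), abs_sub_comm (c t 0),
      abs_sub_comm (c t 1), abs_sub_comm (c t 2)]
    exact cubes ht h

theorem c_strict {s t : ℝ} (hs : 3 ≤ s) (hst : s < t) : c s 0 < c t 0 := by
  have ht : 3 ≤ t := hs.trans hst.le
  have hs0 : s ≠ 0 := by linarith
  have ht0 : t ≠ 0 := by linarith
  have hs1 : s + 1 ≠ 0 := by linarith
  have ht1 : t + 1 ≠ 0 := by linarith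
  have hs2 : s - 1 ≠ 0 := by linarith
  have ht2 : t - 1 ≠ 0 := by linarith
  have h2 : 0 < (s - 1) * (t - 1) := mul_pos (by linarith) (by linarith)
  have g0 : c t 0 - c s 0 = (t - s) * (1 - 1 / (s * t) + 2 * (1 / ((s + 1) * (t + 1))) +
      2 * (1 / ((s - 1) * (t - 1)))) := by
    simp only [c, Matrix.cons_val_zero]
    field_simp
    ring
  have hp1 : 1 / (s * t) ≤ 1 / 9 := by
    apply one_div_le_one_div_of_le (by norm_num)
    nlinarith
  have hq0 : 0 ≤ 1 / ((s + 1) * (t + 1)) := by positivity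
  have hr0 : 0 ≤ 1 / ((s - 1) * (t - 1)) := by positivity
  have := mul_pos (sub_pos.2 hst) (show 0 < 1 - 1 / (s * t) + 2 * (1 / ((s + 1) * (t + 1))) +
      2 * (1 / ((s - 1) * (t - 1))) by linarith)
  linarith

theorem d_strict {s t : ℝ} (hs : 3 ≤ s) (hst : s < t) : d s 1 < d t 1 := by
  have ht : 3 ≤ t := hs.trans hst.le
  have hs0 : s ≠ 0 := by linarith
  have ht0 : t ≠ 0 := by linarith
  have hs1 : s + 1 ≠ 0 := by linarith
  have ht1 : t + 1 ≠ 0 := by linarith
  have hs2 : s - 1 ≠ 0 := by linarith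
  have ht2 : t - 1 ≠ 0 := by linarith
  have g0 : d t 1 - d s 1 = (t - s) * (1 - 1 / (s * t) - 2 * (1 / ((s + 1) * (t + 1))) -
      2 * (1 / ((s - 1) * (t - 1)))) := by
    simp only [d, Matrix.cons_val_one, Matrix.cons_val_zero]
    field_simp
    ring
  have hp1 : 1 / (s * t) ≤ 1 / 9 := by
    apply one_div_le_one_div_of_le (by norm_num)
    nlinarith
  have hq1 : 1 / ((s + 1) * (t + 1)) ≤ 1 / 16 := by
    apply one_div_le_one_div_of_le (by norm_num)
    nlinarith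
  have hr1 : 1 / ((s - 1) * (t - 1)) ≤ 1 / 4 := by
    apply one_div_le_one_div_of_le (by norm_num)
    nlinarith
  have := mul_pos (sub_pos.2 hst) (show 0 < 1 - 1 / (s * t) - 2 * (1 / ((s + 1) * (t + 1))) -
      2 * (1 / ((s - 1) * (t - 1))) by linarith)
  linarith

theorem c_inj : Set.InjOn c (Set.Ici 3) := by
  intro s hs t ht h
  rcases lt_trichotomy s t with h1 | h1 | h1
  · exact absurd (congrFun h 0) (c_strict hs h1).ne
  · exact h1
  · exact absurd (congrFun h 0) (c_strict ht h1).ne'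

theorem d_inj : Set.InjOn d (Set.Ici 3) := by
  intro s hs t ht h
  rcases lt_trichotomy s t with h1 | h1 | h1
  · exact absurd (congrFun h 1) (d_strict hs h1).ne
  · exact h1
  · exact absurd (congrFun h 1) (d_strict ht h1).ne'

open Polynomial in
/-- the polynomial whose roots are the parameters of the points in a plane -/
noncomputable def poly (α β γ δ : ℝ) : ℝ[X] :=
  C (α + β + γ) * X ^ 4 + C (-δ) * X ^ 3 + C (-2 * α + 4 * β - 2 * γ) * X ^ 2 +
    C (4 * α - 4 * γ + δ) * X + C (α - β + γ)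

open Polynomial in
theorem poly_ne {α β γ δ : ℝ} (h : ¬ (α = 0 ∧ β = 0 ∧ γ = 0)) : poly α β γ δ ≠ 0 := by
  intro h0
  apply h
  have h4 := congrArg (fun P : ℝ[X] => P.coeff 4) h0
  have h3 := congrArg (fun P : ℝ[X] => P.coeff 3) h0
  have h2 := congrArg (fun P : ℝ[X] => P.coeff 2) h0
  have h1 := congrArg (fun P : ℝ[X] => P.coeff 1) h0
  have hz := congrArg (fun P : ℝ[X] => P.coeff 0) h0
  simp only [poly, coeff_add, coeff_C_mul, coeff_X_pow, coeff_X, coeff_C, coeff_zero] at h4 h3 h2 h1 hz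
  norm_num at h4 h3 h2 h1 hz
  refine ⟨by linarith, by linarith, by linarith⟩

open Polynomial in
theorem poly_degree (α β γ δ : ℝ) : (poly α β γ δ).natDegree ≤ 4 := by
  unfold poly
  compute_degree

theorem plane_bound {P : Set (Fin 3 → ℝ)} (hP : IsPlane P) :
    ((d '' Set.Ici 3) ∩ P).encard ≤ 4 := by
  obtain ⟨A, hA, rfl⟩ := hP
  rcases ((d '' Set.Ici 3) ∩ (A : Set (Fin 3 → ℝ))).eq_empty_or_nonempty with h | ⟨x₀, _, hx₀⟩
  · rw [h]; simp
  have hlt : A.direction < ⊤ := by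
    rw [lt_top_iff_ne_top]
    intro h
    rw [h] at hA
    simp at hA
  obtain ⟨f, hf, hker⟩ := Submodule.exists_le_ker_of_lt_top _ hlt
  have hfe : ∀ x : Fin 3 → ℝ, f x = f (Pi.single 0 1) * x 0 + f (Pi.single 1 1) * x 1 +
      f (Pi.single 2 1) * x 2 := by
    intro x
    have hx : x = x 0 • (Pi.single 0 1 : Fin 3 → ℝ) + x 1 • (Pi.single 1 1 : Fin 3 → ℝ) +
        x 2 • (Pi.single 2 1 : Fin 3 → ℝ) := by
      ext i
      fin_cases i <;> simp
    conv_lhs => rw [hx]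
    simp only [map_add, map_smul, smul_eq_mul]
    ring
  obtain ⟨α, hα⟩ : ∃ α, α = f (Pi.single 0 1) := ⟨_, rfl⟩
  obtain ⟨β, hβ⟩ : ∃ β, β = f (Pi.single 1 1) := ⟨_, rfl⟩
  obtain ⟨γ, hγ⟩ : ∃ γ, γ = f (Pi.single 2 1) := ⟨_, rfl⟩
  rw [← hα, ← hβ, ← hγ] at hfe
  have hne : ¬ (α = 0 ∧ β = 0 ∧ γ = 0) := by
    rintro ⟨h0, h1, h2⟩
    apply hf
    ext x
    rw [h0, h1, h2] at hfe
    simp [hfe]
  have hcon : ∀ x ∈ A, f x = f x₀ := by
    intro x hx
    have h1 : x -ᵥ x₀ ∈ A.direction := AffineSubspace.vsub_mem_direction hx hx₀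
    have h2 := hker h1
    rw [LinearMap.mem_ker, vsub_eq_sub, map_sub] at h2
    linarith
  have hsub : (d '' Set.Ici 3) ∩ (A : Set (Fin 3 → ℝ)) ⊆
      d '' ((poly α β γ (f x₀)).roots.toFinset : Set ℝ) := by
    rintro x ⟨⟨t, ht, rfl⟩, hx⟩
    refine ⟨t, ?_, rfl⟩
    rw [Finset.mem_coe, Multiset.mem_toFinset, Polynomial.mem_roots (poly_ne hne),
      Polynomial.IsRoot.def]
    have h1 := hcon _ hx
    rw [hfe (d t)] at h1
    rw [Set.mem_Ici] at ht
    have ht0 : t ≠ 0 := by linarith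
    have ht1 : t + 1 ≠ 0 := by linarith
    have ht2 : t - 1 ≠ 0 := by linarith
    have hX : d t 0 * (t * ((t + 1) * (t - 1))) = t ^ 4 - 2 * t ^ 2 + 4 * t + 1 := by
      simp only [d, Matrix.cons_val_zero]
      field_simp
      ring
    have hY : d t 1 * (t * ((t + 1) * (t - 1))) = t ^ 4 + 4 * t ^ 2 - 1 := by
      simp only [d, Matrix.cons_val_one, Matrix.cons_val_zero]
      field_simp
      ring
    have hZ : d t 2 * (t * ((t + 1) * (t - 1))) = t ^ 4 - 2 * t ^ 2 - 4 * t + 1 := by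
      simp only [d, Matrix.cons_val]
      field_simp
      ring
    simp only [poly, Polynomial.eval_add, Polynomial.eval_mul, Polynomial.eval_C,
      Polynomial.eval_pow, Polynomial.eval_X]
    linear_combination (t * ((t + 1) * (t - 1))) * h1 - α * hX - β * hY - γ * hZ
  calc ((d '' Set.Ici 3) ∩ (A : Set (Fin 3 → ℝ))).encard
      ≤ (d '' ((poly α β γ (f x₀)).roots.toFinset : Set ℝ)).encard := Set.encard_le_encard hsub
    _ ≤ ((poly α β γ (f x₀)).roots.toFinset : Set ℝ).encard := Set.encard_image_le _ _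
    _ = ((poly α β γ (f x₀)).roots.toFinset.card : ℕ∞) := Set.encard_coe_eq_coe_finsetCard _
    _ ≤ (4 : ℕ) := by
      rw [Nat.cast_le]
      exact (Multiset.toFinset_card_le _).trans
        ((Polynomial.card_roots' _).trans (poly_degree _ _ _ _))
    _ = 4 := by norm_num

/-- For `p = 3` there are an uncountable set `M` in the horizontal plane `x₃ = 0` and an
`ℓ_p`-isometric copy `M'` of `M` in `ℝ³` which meets every plane in at most four points. -/
theorem result : ∃ M M' : Set (Fin 3 → ℝ), ¬ M.Countable ∧ M ⊆ {x | x 2 = 0} ∧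
    IsCopy 3 M M' ∧ ∀ P, IsPlane P → (M' ∩ P).encard ≤ 4 := by
  refine ⟨c '' Set.Ici 3, d '' Set.Ici 3, ?_, ?_, ?_, fun P hP => plane_bound hP⟩
  · intro h
    have h1 := Set.countable_of_injective_of_countable_image c_inj h
    have h3 := Cardinal.le_aleph0_iff_set_countable.2 h1
    rw [Cardinal.mk_Ici_real] at h3
    exact absurd h3 (not_le.2 Cardinal.aleph0_lt_continuum)
  · rintro x ⟨t, _, rfl⟩
    simp [c]
  · refine ⟨(Equiv.Set.imageOfInjOn c _ c_inj).symm.trans (Equiv.Set.imageOfInjOn d _ d_inj), ?_⟩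
    intro x y
    obtain ⟨⟨s, hs⟩, rfl⟩ := (Equiv.Set.imageOfInjOn c _ c_inj).surjective x
    obtain ⟨⟨t, ht⟩, rfl⟩ := (Equiv.Set.imageOfInjOn c _ c_inj).surjective y
    rw [Equiv.trans_apply, Equiv.trans_apply, Equiv.symm_apply_apply, Equiv.symm_apply_apply]
    exact isometric ht hs

end Pool.Agent.Results.MP_04b39a_gt.NoPlane
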